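import Mathlib

/-!
# Products of two copies of a curve
-/

set_option autoImplicit false

namespace Pool.Agent.Q60.GR

noncomputable section

/-- The numerical classes of divisors with rational coefficients on the surface `X × X`, where `X` is a
smooth projective curve of genus `g` over an algebraically closed field, with the intersection
form. -/
structure CurveSq (g : ℕ) where
  /-- the space of the numerical classes of divisors -/
  NS : Type
  [grp : AddCommGroup NS]
  [mod : Module ℚ NS]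
  /-- the intersection form -/
  B : LinearMap.BilinForm ℚ NS
  symm : ∀ x y, B x y = B y x
  /-- the class of a fibre of the first projection -/
  f₁ : NS
  /-- the class of a fibre of the second projection -/
  f₂ : NS
  /-- the class of the diagonal -/
  Δ : NS
  f₁_f₁ : B f₁ f₁ = 0
  f₂_f₂ : B f₂ f₂ = 0
  f₁_f₂ : B f₁ f₂ = 1
  Δ_f₁ : B Δ f₁ = 1
  Δ_f₂ : B Δ f₂ = 1
  Δ_Δ : B Δ Δ = 2 - 2 * g
  /-- the Hodge index theorem -/
  index : ∀ z, B z f₁ = 0 → B z f₂ = 0 → B z z ≤ 0
  /-- the classes of the irreducible curves on `X × X` -/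
  Irr : Set NS
  /-- the degrees of an irreducible curve over the two factors -/
  degrees : ∀ C ∈ Irr, ∃ x y : ℕ, B C f₁ = x ∧ B C f₂ = y
  /-- an irreducible curve which does not dominate the first factor is a fibre -/
  fibre₁ : ∀ C ∈ Irr, B C f₁ = 0 → C = f₁
  /-- an irreducible curve which does not dominate the second factor is a fibre -/
  fibre₂ : ∀ C ∈ Irr, B C f₂ = 0 → C = f₂
  /-- the arithmetic genus of an irreducible curve which dominates both factors is at least `g`; the
  canonical class of `X × X` is `(2 g - 2) (f₁ + f₂)` -/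
  adjunction : ∀ C ∈ Irr, B C f₁ ≠ 0 → B C f₂ ≠ 0 →
    2 * (g : ℚ) - 2 ≤ B C C + (2 * g - 2) * (B C f₁ + B C f₂)

attribute [instance] CurveSq.grp CurveSq.mod

namespace CurveSq

variable {g : ℕ} (X : CurveSq g)

/-- Ample classes (criterion of Nakai and Moishezon). -/
def IsAmple (D : X.NS) : Prop := 0 < X.B D D ∧ ∀ C ∈ X.Irr, 0 < X.B D C

/-- The class of `G r`: multiplication by `r ^ k` on the cohomology of degree `k` of `X`. -/
def G (r : ℚ) : X.NS := X.f₂ + r ^ 2 • X.f₁ + r • (X.Δ - X.f₁ - X.f₂)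

/-- For each curve of genus at least two there are an ample class `D` and `r > 0` such that the degree
of `G r` with respect to `D` is negative. -/
theorem exists_ample (hg : 2 ≤ g) :
    ∃ D : X.NS, X.IsAmple D ∧ ∃ r : ℚ, 0 < r ∧ X.B (X.G r) D < 0 := by
  have hg' : (2 : ℚ) ≤ g := by exact_mod_cast hg
  have hg0 : (0 : ℚ) < g := by linarith
  set lam : ℚ := 201 / 160 / g with hlam
  have hlg : lam * g = 201 / 160 := by
    rw [hlam]
    field_simp
  let δ : X.NS := X.Δ - X.f₁ - X.f₂
  have hf21 : X.B X.f₂ X.f₁ = 1 := by rw [X.symm, X.f₁_f₂]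
  have hδ1 : X.B δ X.f₁ = 0 := by
    simp only [δ, map_sub, LinearMap.sub_apply, X.Δ_f₁, X.f₁_f₁, hf21]
    norm_num
  have hδ2 : X.B δ X.f₂ = 0 := by
    simp only [δ, map_sub, LinearMap.sub_apply, X.Δ_f₂, X.f₁_f₂, X.f₂_f₂]
    norm_num
  have hΔδ : X.B X.Δ δ = - 2 * g := by
    simp only [δ, map_sub, X.Δ_Δ, X.Δ_f₁, X.Δ_f₂]
    ring
  have h1δ : X.B X.f₁ δ = 0 := by rw [X.symm, hδ1]
  have h2δ : X.B X.f₂ δ = 0 := by rw [X.symm, hδ2]
  have hδδ : X.B δ δ = - 2 * g := by
    have h : ∀ w, X.B δ w = X.B X.Δ w - X.B X.f₁ w - X.B X.f₂ w := by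
      intro w
      simp only [δ, map_sub, LinearMap.sub_apply]
    rw [h δ, hΔδ, h1δ, h2δ]
    ring
  let D : X.NS := X.f₁ + (25 / 16 : ℚ) • X.f₂ + lam • δ
  have hD : ∀ z, X.B D z = X.B X.f₁ z + 25 / 16 * X.B X.f₂ z + lam * X.B δ z := by
    intro z
    simp only [D, map_add, map_smul, LinearMap.add_apply, LinearMap.smul_apply, smul_eq_mul]
  have hlam0 : 0 < lam := by rw [hlam]; positivity
  have hlam2 : lam ^ 2 * g = 201 / 160 * lam := by
    rw [pow_two, mul_assoc, hlg]
    ring
  have hlamle : lam ≤ 201 / 320 := by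
    rw [hlam, div_le_iff₀ hg0]
    linarith
  refine ⟨D, ⟨?_, fun C hC => ?_⟩, 4 / 5, by norm_num, ?_⟩
  · have h1 : X.B D D = 2 * (25 / 16) - 2 * (lam ^ 2 * g) := by
      rw [hD D, X.symm X.f₁, X.symm X.f₂, X.symm δ, hD, hD, hD, X.f₁_f₁, hf21, hδ1, X.f₁_f₂, X.f₂_f₂,
        hδ2, h1δ, h2δ, hδδ]
      ring
    rw [h1, hlam2]
    linarith
  · obtain ⟨x, y, hx, hy⟩ := X.degrees C hC
    have h1x : X.B X.f₁ C = x := by rw [X.symm, hx]
    have h2y : X.B X.f₂ C = y := by rw [X.symm, hy]
    rw [hD C, h1x, h2y]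
    rcases Nat.eq_zero_or_pos x with h0 | hxpos
    · have h := X.fibre₁ C hC (by rw [hx, h0]; norm_num)
      have h3 : X.B δ C = 0 := by rw [h, hδ1]
      have h4 : (y : ℚ) = 1 := by rw [← hy, h, X.f₁_f₂]
      rw [h3, h4, h0]
      norm_num
    rcases Nat.eq_zero_or_pos y with h0 | hypos
    · have h := X.fibre₂ C hC (by rw [hy, h0]; norm_num)
      have h3 : X.B δ C = 0 := by rw [h, hδ2]
      have h4 : (x : ℚ) = 1 := by rw [← hx, h, hf21]
      rw [h3, h4, h0]
      norm_num
    have hxq : (1 : ℚ) ≤ x := by exact_mod_cast hxpos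
    have hyq : (1 : ℚ) ≤ y := by exact_mod_cast hypos
    have hadj := X.adjunction C hC (by rw [hx]; linarith) (by rw [hy]; linarith)
    rw [hx, hy] at hadj
    set τ := X.B δ C with hτ
    -- the Hodge index theorem
    let z : X.NS := C - (y : ℚ) • X.f₁ - (x : ℚ) • X.f₂ + (τ / (2 * g)) • δ
    have hz1 : X.B z X.f₁ = 0 := by
      simp only [z, map_add, map_sub, map_smul, LinearMap.add_apply, LinearMap.sub_apply,
        LinearMap.smul_apply, smul_eq_mul, hx, X.f₁_f₁, hf21, hδ1]
      ring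
    have hz2 : X.B z X.f₂ = 0 := by
      simp only [z, map_add, map_sub, map_smul, LinearMap.add_apply, LinearMap.sub_apply,
        LinearMap.smul_apply, smul_eq_mul, hy, X.f₁_f₂, X.f₂_f₂, hδ2]
      ring
    have hz := X.index z hz1 hz2
    have hzz : X.B z z = X.B C C - 2 * x * y + τ ^ 2 / (2 * g) := by
      have h1 : X.B z z = X.B z C + τ / (2 * g) * X.B z δ := by
        conv_lhs => rw [show X.B z z = X.B z (C - (y : ℚ) • X.f₁ - (x : ℚ) • X.f₂ +
          (τ / (2 * g)) • δ) from rfl]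
        simp only [map_add, map_sub, map_smul, smul_eq_mul, hz1, hz2]
        ring
      have h2 : X.B z C = X.B C C - y * x - x * y + τ / (2 * g) * τ := by
        simp only [z, map_add, map_sub, map_smul, LinearMap.add_apply, LinearMap.sub_apply,
          LinearMap.smul_apply, smul_eq_mul, h1x, h2y, hτ]
      have h3 : X.B z δ = 0 := by
        have h4 : X.B C δ = τ := by rw [X.symm]
        simp only [z, map_add, map_sub, map_smul, LinearMap.add_apply, LinearMap.sub_apply,
          LinearMap.smul_apply, smul_eq_mul, h4, h1δ, h2δ, hδδ]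
        field_simp
        ring
      rw [h1, h2, h3]
      ring
    have hτ2 : τ ^ 2 ≤ 2 * g * (2 * x * y + (2 * g - 2) * (x + y - 1)) := by
      have h1 : τ ^ 2 / (2 * g) ≤ 2 * x * y + (2 * g - 2) * (x + y - 1) := by
        rw [hzz] at hz
        linarith
      rw [div_le_iff₀ (by positivity)] at h1
      linarith
    have hmain : (lam * τ) ^ 2 < ((x : ℚ) + 25 / 16 * y) ^ 2 := by
      have h1 : (lam * τ) ^ 2 ≤ 201 / 160 * lam * 2 * (2 * x * y + (2 * g - 2) * (x + y - 1)) := by
        calc (lam * τ) ^ 2 = lam ^ 2 * τ ^ 2 := by ring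
          _ ≤ lam ^ 2 * (2 * g * (2 * x * y + (2 * g - 2) * (x + y - 1))) :=
            mul_le_mul_of_nonneg_left hτ2 (sq_nonneg _)
          _ = (lam ^ 2 * g) * 2 * (2 * x * y + (2 * g - 2) * (x + y - 1)) := by ring
          _ = _ := by rw [hlam2]
      have h2 : 201 / 160 * lam * 2 * (2 * x * y + (2 * g - 2) * (x + y - 1)) =
          201 / 40 * lam * (x * y - (x + y - 1)) + 4 * (201 / 160) ^ 2 * (x + y - 1) := by
        have h3 : lam * (2 * g - 2) = 2 * (201 / 160) - 2 * lam := by
          rw [← hlg]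
          ring
        calc 201 / 160 * lam * 2 * (2 * x * y + (2 * g - 2) * (x + y - 1))
            = 201 / 80 * (2 * lam * x * y + (lam * (2 * g - 2)) * (x + y - 1)) := by ring
          _ = _ := by rw [h3]; ring
      have h3 : 201 / 40 * lam * (x * y - (x + y - 1)) ≤
          201 / 40 * (201 / 320) * ((x : ℚ) * y - (x + y - 1)) := by
        refine mul_le_mul_of_nonneg_right (by linarith) ?_
        have : (0 : ℚ) ≤ (x - 1) * (y - 1) := mul_nonneg (by linarith) (by linarith)
        linarith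
      have h4 : 201 / 40 * (201 / 320) * ((x : ℚ) * y - (x + y - 1)) +
          4 * (201 / 160) ^ 2 * (x + y - 1) < ((x : ℚ) + 25 / 16 * y) ^ 2 := by
        rcases Nat.lt_or_ge x 2 with hx2 | hx2
        · have hx1 : (x : ℚ) = 1 := by
            have : x = 1 := by omega
            rw [this]; norm_num
          rw [hx1]
          nlinarith
        rcases Nat.lt_or_ge y 2 with hy2 | hy2
        · have hy1 : (y : ℚ) = 1 := by
            have : y = 1 := by omega
            rw [this]; norm_num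
          have hx2' : (2 : ℚ) ≤ x := by exact_mod_cast hx2
          rw [hy1]
          nlinarith
        · have hx2' : (2 : ℚ) ≤ x := by exact_mod_cast hx2
          have hy2' : (2 : ℚ) ≤ y := by exact_mod_cast hy2
          nlinarith [mul_nonneg (sub_nonneg.2 hx2') (sub_nonneg.2 hy2'),
            sq_nonneg ((x : ℚ) - 25 / 16 * y)]
      linarith
    have hpos : 0 < (x : ℚ) + 25 / 16 * y := by positivity
    have h5 := abs_lt_of_sq_lt_sq hmain hpos.le
    have h6 := (abs_lt.1 h5).1
    linarith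
  · have h1 : X.B (X.G (4 / 5)) D = 1 + 25 / 16 * (4 / 5) ^ 2 - 2 * (lam * g) * (4 / 5) := by
      rw [X.symm, hD]
      have h2 : X.B X.f₁ (X.G (4 / 5)) = 1 := by
        change X.B X.f₁ (X.f₂ + (4 / 5 : ℚ) ^ 2 • X.f₁ + (4 / 5 : ℚ) • δ) = 1
        rw [map_add, map_add, map_smul, map_smul, X.f₁_f₂, X.f₁_f₁, h1δ, smul_zero, smul_zero]
        norm_num
      have h3 : X.B X.f₂ (X.G (4 / 5)) = (4 / 5) ^ 2 := by
        change X.B X.f₂ (X.f₂ + (4 / 5 : ℚ) ^ 2 • X.f₁ + (4 / 5 : ℚ) • δ) = (4 / 5) ^ 2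
        rw [map_add, map_add, map_smul, map_smul, X.f₂_f₂, hf21, h2δ, smul_zero, smul_eq_mul]
        norm_num
      have h4 : X.B δ (X.G (4 / 5)) = 4 / 5 * (- 2 * g) := by
        change X.B δ (X.f₂ + (4 / 5 : ℚ) ^ 2 • X.f₁ + (4 / 5 : ℚ) • δ) = _
        rw [map_add, map_add, map_smul, map_smul, hδ2, hδ1, hδδ, smul_zero, smul_eq_mul]
        ring
      rw [h2, h3, h4]
      ring
    rw [h1, hlg]
    norm_num

end CurveSq

end

end Pool.Agent.Q60.GR
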