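import Mathlib

/-!
# Correspondences on varieties over algebraic closures of finite fields
-/

set_option autoImplicit false

namespace Pool.Agent.Q60.GR

open Module

noncomputable section

/-- The alternating sum of the traces of `x * y` on the images of the projections `e 0, …, e (2 n)`. -/
def inter {V : Type} [AddCommGroup V] [Module ℂ V] (n : ℕ) (e : ℕ → Module.End ℂ V)
    (x y : Module.End ℂ V) : ℂ :=
  ∑ k ∈ Finset.range (2 * n + 1), (-1) ^ k * LinearMap.trace ℂ V (e k * (x * y))

/-- The cohomology and the correspondences of a smooth projective variety `X` of dimension `n` over an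
algebraic closure of a finite field, defined over the field with `q` elements, with ample divisors
`h`, `h'` on `X` defined over the same field. `V` is the sum of the `ℓ`-adic cohomology groups of `X`,
regarded as a complex vector space by an isomorphism between an algebraic closure of `ℚ_ℓ` and `ℂ`, and a
correspondence `x` (a cycle of codimension `n` on `X × X` with rational coefficients) is identified with
its action `x^* a = p_{1*} (x · p_2^* a)` on `V`, so that `x^* y^*` is the action of the composition
`y ∘ x = p_{13*} (p_12^* x · p_23^* y)`. -/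
structure Corr (n q : ℕ) where
  /-- the cohomology of `X` -/
  V : Type
  [grp : AddCommGroup V]
  [mod : Module ℂ V]
  [fin : FiniteDimensional ℂ V]
  /-- the projection `e k` of the cohomology to the part of degree `k` -/
  e : ℕ → Module.End ℂ V
  e_mul : ∀ k l, e k * e l = if k = l then e k else 0
  e_sum : ∑ k ∈ Finset.range (2 * n + 1), e k = 1
  /-- the ring of the algebraic correspondences of degree zero -/
  A : Subring (Module.End ℂ V)
  smul_mem : ∀ (a : ℚ) (x : Module.End ℂ V), x ∈ A → (a : ℂ) • x ∈ A
  comm : ∀ k, ∀ x ∈ A, e k * x = x * e k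
  /-- the Künneth components of the diagonal are algebraic -/
  e_mem : ∀ k, e k ∈ A
  /-- the trace formula: `inter n e x y` is the intersection number of `x` and the transpose of `y`, a
  rational number -/
  rat : ∀ x ∈ A, ∀ y ∈ A, ∃ a : ℚ, inter n e x y = a
  /-- the graph of the Frobenius endomorphism -/
  F : Module.End ℂ V
  F_mem : F ∈ A
  /-- the transpose of `F` -/
  F' : Module.End ℂ V
  F'_mem : F' ∈ A
  F_F' : F * F' = (q : ℂ) ^ n • 1
  /-- each cycle is defined over a finite extension of the field with `q` elements -/
  defined : ∀ x ∈ A, ∃ s : ℕ, 0 < s ∧ F ^ s * x = x * F ^ s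
  /-- the eigenvalues of the Frobenius endomorphism on the cohomology group of degree `k` have the
  absolute value `q ^ (k / 2)` -/
  weight : ∀ (k : ℕ) (α : ℂ) (v : V), v ≠ 0 → e k v = v → F v = α • v → ‖α‖ ^ 2 = (q : ℝ) ^ k
  /-- the classes of the effective cycles of codimension `n` on `X × X` -/
  Eff : Set (Module.End ℂ V)
  eff_mem : ∀ f ∈ Eff, f ∈ A
  /-- the composition of an effective cycle with the graph of the Frobenius endomorphism is effective -/
  eff_F : ∀ f ∈ Eff, f * F ∈ Eff
  /-- the composition of an effective cycle with the transpose of the graph is effective -/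
  eff_F' : ∀ f ∈ Eff, f * F' ∈ Eff
  /-- `c j` is the class of the transpose of `p_1^* h ^ (n - j) · p_2^* h' ^ j`, that is, the operator
  which maps `a` to `deg (a · h ^ (n - j)) h' ^ j` -/
  c : ℕ → Module.End ℂ V
  c_mem : ∀ j, c j ∈ A
  c_deg : ∀ j, e (2 * j) * c j = c j
  /-- the Frobenius endomorphism multiplies `h'` by `q` -/
  F_c : ∀ j, F * c j = (q : ℂ) ^ j • c j
  /-- intersection numbers of effective cycles with `p_1^* h ^ (n - j) · p_2^* h' ^ j` -/
  eff_nonneg : ∀ f ∈ Eff, ∀ j ≤ n, 0 ≤ (inter n e f (c j)).re
  /-- intersection numbers of effective cycles `f` with a given cycle are bounded by a multiple of the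
  intersection number of `f` with `(p_1^* h + p_2^* h') ^ n` -/
  eff_bounded : ∀ z ∈ A, ∃ C : ℝ, ∀ f ∈ Eff,
    ‖inter n e f z‖ ≤ C * (inter n e f (∑ j ∈ Finset.range (n + 1), (n.choose j : ℂ) • c j)).re

attribute [instance] Corr.grp Corr.mod Corr.fin

namespace Corr

variable {n q : ℕ} (X : Corr n q)

/-- The operator `G r`, multiplication by `r ^ k` on the cohomology group of degree `k`. -/
def G (r : ℚ) : Module.End ℂ X.V :=
  ∑ k ∈ Finset.range (2 * n + 1), ((r : ℂ) ^ k) • X.e k

/-- The degree, the intersection number with `(p_1^* h + p_2^* h') ^ n`. -/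
def deg (f : Module.End ℂ X.V) : ℝ :=
  (inter n X.e f (∑ j ∈ Finset.range (n + 1), (n.choose j : ℂ) • X.c j)).re

/-- The class of `f` modulo numerical equivalence: the function of the intersection numbers of `f`
with the (transposes of the) cycles `z`. -/
def num (f : Module.End ℂ X.V) : X.A → ℂ := fun z => inter n X.e f z

/-- The real vector space of the correspondences modulo numerical equivalence, `N^n (X × X)_ℝ`. -/
def N : Submodule ℝ (X.A → ℂ) := Submodule.span ℝ (Set.range fun f : X.A => X.num f)

theorem num_mem (f : Module.End ℂ X.V) (hf : f ∈ X.A) : X.num f ∈ X.N :=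
  Submodule.subset_span ⟨⟨f, hf⟩, rfl⟩

theorem G_mem (r : ℚ) : X.G r ∈ X.A := by
  refine Subring.sum_mem _ fun k _ => ?_
  have h := X.smul_mem (r ^ k) _ (X.e_mem k)
  rwa [Rat.cast_pow] at h

theorem G_mul_mem (r : ℚ) (f : Module.End ℂ X.V) (hf : f ∈ X.Eff) : f * X.G r ∈ X.A :=
  X.A.mul_mem (X.eff_mem f hf) (X.G_mem r)

end Corr

end

end Pool.Agent.Q60.GR
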