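import Mathlib

/-!
# Linear algebra for the norm-degree inequality
-/

set_option autoImplicit false

namespace Pool.Agent.Q60.GR

open Module Polynomial

noncomputable section

variable {V : Type} [AddCommGroup V] [Module ℂ V] [FiniteDimensional ℂ V]

/-- An operator without eigenvalues different from zero has trace zero. -/
theorem trace_zero (U : Module.End ℂ V)
    (h : ∀ (γ : ℂ) (v : V), v ≠ 0 → U v = γ • v → γ = 0) : LinearMap.trace ℂ V U = 0 := by
  have h1 : IsNilpotent U := by
    have h2 := Module.End.iSup_maxGenEigenspace_eq_top U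
    have h3 : ∀ μ : ℂ, U.maxGenEigenspace μ ≤ U.maxGenEigenspace 0 := by
      intro μ
      by_cases hμ : μ = 0
      · rw [hμ]
      · have h4 : U.maxGenEigenspace μ = ⊥ := by
          by_contra hne
          have h7 : U.HasUnifEigenvalue μ ⊤ := hne
          have h5 : U.HasEigenvalue μ := h7.lt zero_lt_one
          obtain ⟨v, hv⟩ := h5.exists_hasEigenvector
          exact hμ (h μ v hv.2 hv.apply_eq_smul)
        rw [h4]
        exact bot_le
    have h4 : U.maxGenEigenspace 0 = ⊤ := top_le_iff.1 (h2 ▸ iSup_le h3)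
    refine ⟨finrank ℂ V, ?_⟩
    ext v
    have h5 : v ∈ U.maxGenEigenspace 0 := by
      rw [h4]
      trivial
    rw [Module.End.maxGenEigenspace_eq_genEigenspace_finrank, Module.End.mem_genEigenspace_nat] at h5
    simpa using h5
  exact (LinearMap.isNilpotent_trace_of_isNilpotent h1).eq_zero

/-- A nonzero subspace stable under `Ψ` contains an eigenvector. -/
theorem exists_eigen (Ψ : Module.End ℂ V) (W : Submodule ℂ V) (hW : W ≠ ⊥)
    (hs : ∀ v ∈ W, Ψ v ∈ W) : ∃ (β : ℂ) (u : V), u ∈ W ∧ u ≠ 0 ∧ Ψ u = β • u := by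
  have : Nontrivial W := Submodule.nontrivial_iff_ne_bot.2 hW
  obtain ⟨β, hβ⟩ := Module.End.exists_eigenvalue (Ψ.restrict hs)
  obtain ⟨u, hu⟩ := hβ.exists_hasEigenvector
  refine ⟨β, u, u.2, fun h => hu.2 (Subtype.ext h), ?_⟩
  exact congrArg Subtype.val hu.apply_eq_smul

omit [FiniteDimensional ℂ V] in
theorem commute_aeval {x Ψ : Module.End ℂ V} (h : x * Ψ = Ψ * x) (R : ℂ[X]) :
    x * aeval Ψ R = aeval Ψ R * x := by
  have h4 : ∀ R : ℂ[X], Commute x (aeval Ψ R) := by
    intro R
    induction R using Polynomial.induction_on' with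
    | add p q hp hq => rw [map_add]; exact hp.add_right hq
    | monomial m a =>
      rw [aeval_monomial]
      exact (show Commute x _ from (Algebra.commutes a x).symm).mul_right
        ((show Commute x Ψ from h).pow_right m)
  exact h4 R

omit [FiniteDimensional ℂ V] in
theorem aeval_eigen (Ψ : Module.End ℂ V) {β : ℂ} {u : V} (h : Ψ u = β • u) (R : ℂ[X]) :
    aeval Ψ R u = R.eval β • u := by
  induction R using Polynomial.induction_on' with
  | add p q hp hq => rw [map_add, LinearMap.add_apply, hp, hq, eval_add, add_smul]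
  | monomial m a =>
    have h1 : ∀ m : ℕ, (Ψ ^ m) u = β ^ m • u := by
      intro m
      induction m with
      | zero => simp
      | succ m ih =>
        rw [pow_succ, Module.End.mul_apply, h, map_smul, ih, smul_smul, pow_succ, mul_comm]
    rw [aeval_monomial, eval_monomial, Module.End.mul_apply, h1, Module.algebraMap_end_apply,
      smul_smul]

/-- The trace of the product of an operator in the algebra generated by `Ψ` and the projection `ε` and an
operator which commutes with both is zero, if the first factor vanishes on the eigenvectors. -/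
theorem trace_core (Ψ ε y : Module.End ℂ V) (R : ℂ[X]) (he : ε * ε = ε) (h1 : ε * Ψ = Ψ * ε)
    (h2 : ε * y = y * ε) (h3 : y * Ψ = Ψ * y)
    (hR : ∀ (β : ℂ) (u : V), u ≠ 0 → ε u = u → Ψ u = β • u → R.eval β = 0) :
    LinearMap.trace ℂ V (ε * aeval Ψ R * y) = 0 := by
  refine trace_zero _ fun γ v hv hU => ?_
  by_contra hγ
  have hc : ε * aeval Ψ R = aeval Ψ R * ε := commute_aeval h1 R
  have hcy : y * aeval Ψ R = aeval Ψ R * y := commute_aeval h3 R
  have hcR : Ψ * aeval Ψ R = aeval Ψ R * Ψ := commute_aeval rfl R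
  set U := ε * aeval Ψ R * y with hUdef
  have hUΨ : U * Ψ = Ψ * U := by
    rw [hUdef, mul_assoc, h3, ← mul_assoc, mul_assoc ε, ← hcR, ← mul_assoc, h1, mul_assoc, mul_assoc,
      mul_assoc]
  have hUε : ε * U = U := by
    rw [hUdef, ← mul_assoc, ← mul_assoc, he]
  let W : Submodule ℂ V := LinearMap.ker (U - γ • (1 : Module.End ℂ V))
  have hW : ∀ w, w ∈ W ↔ U w = γ • w := by
    intro w
    rw [LinearMap.mem_ker, LinearMap.sub_apply, sub_eq_zero]
    rfl
  have hne : W ≠ ⊥ := by
    intro h
    have h4 : v ∈ W := (hW v).2 hU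
    rw [h, Submodule.mem_bot] at h4
    exact hv h4
  obtain ⟨β, u, hu, hu0, hβ⟩ := exists_eigen Ψ W hne fun w hw => by
    rw [hW] at hw ⊢
    have h4 := congrArg (fun T : Module.End ℂ V => T w) hUΨ
    simp only [Module.End.mul_apply] at h4
    rw [h4, hw, map_smul]
  rw [hW] at hu
  have hεu : ε u = u := by
    have h4 := congrArg (fun T : Module.End ℂ V => T u) hUε
    simp only [Module.End.mul_apply] at h4
    rw [hu, map_smul] at h4
    exact smul_right_injective V hγ h4
  have h5 := hR β u hu0 hεu hβ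
  have h6 : U u = 0 := by
    have h7 : U = y * (aeval Ψ R * ε) := by
      rw [hUdef, hc, mul_assoc, h2, ← mul_assoc, ← hcy, mul_assoc]
    rw [h7, Module.End.mul_apply, Module.End.mul_apply, hεu, aeval_eigen Ψ hβ, h5, zero_smul, map_zero]
  rw [hu] at h6
  exact (smul_ne_zero hγ hu0) h6

/-- The eigenvalues on the image of `ε`. -/
def spec (Ψ ε : Module.End ℂ V) : Set ℂ := {β | ∃ u : V, u ≠ 0 ∧ ε u = u ∧ Ψ u = β • u}

theorem spec_finite (Ψ ε : Module.End ℂ V) : (spec Ψ ε).Finite := by
  refine (Module.End.finite_hasEigenvalue Ψ).subset ?_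
  rintro β ⟨u, hu, -, h⟩
  exact Module.End.hasEigenvalue_of_hasEigenvector
    (Module.End.hasEigenvector_iff.2 ⟨Module.End.mem_eigenspace_iff.2 h, hu⟩)

end

end Pool.Agent.Q60.GR
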