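import Mathlib
import Pool.Agent.Q60.GR.Defs
import Pool.Agent.Q60.GR.Lin

/-!
# Numerical equivalence and the Frobenius correspondence
-/

set_option autoImplicit false

namespace Pool.Agent.Q60.GR

open Module Polynomial

noncomputable section

section inter

variable {V : Type} [AddCommGroup V] [Module ℂ V] (n : ℕ) (e : ℕ → Module.End ℂ V)

theorem inter_add_left (x x' y : Module.End ℂ V) :
    inter n e (x + x') y = inter n e x y + inter n e x' y := by
  simp only [inter, add_mul, mul_add, map_add, Finset.sum_add_distrib]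

theorem inter_add_right (x y y' : Module.End ℂ V) :
    inter n e x (y + y') = inter n e x y + inter n e x y' := by
  simp only [inter, mul_add, map_add, Finset.sum_add_distrib]

theorem inter_smul_left (a : ℂ) (x y : Module.End ℂ V) :
    inter n e (a • x) y = a * inter n e x y := by
  unfold inter
  rw [Finset.mul_sum]
  refine Finset.sum_congr rfl fun k _ => ?_
  rw [smul_mul_assoc, mul_smul_comm, map_smul, smul_eq_mul]
  ring

theorem inter_smul_right (a : ℂ) (x y : Module.End ℂ V) :
    inter n e x (a • y) = a * inter n e x y := by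
  unfold inter
  rw [Finset.mul_sum]
  refine Finset.sum_congr rfl fun k _ => ?_
  rw [mul_smul_comm, mul_smul_comm, map_smul, smul_eq_mul]
  ring

theorem inter_mul (x w y : Module.End ℂ V) : inter n e (x * w) y = inter n e x (w * y) := by
  unfold inter
  simp only [mul_assoc]

theorem inter_comm (x y : Module.End ℂ V) (h : ∀ k, e k * x = x * e k) :
    inter n e x y = inter n e y x := by
  unfold inter
  refine Finset.sum_congr rfl fun k _ => ?_
  rw [← mul_assoc, h, mul_assoc, LinearMap.trace_mul_comm, mul_assoc]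

/-- The linear form `inter n e x`. -/
def interR (x : Module.End ℂ V) : Module.End ℂ V →ₗ[ℂ] ℂ where
  toFun := inter n e x
  map_add' := inter_add_right n e x
  map_smul' := fun a y => inter_smul_right n e a x y

end inter

namespace Corr

variable {n q : ℕ} (X : Corr n q)

/-- The complex span of the algebraic correspondences. -/
def AC : Submodule ℂ (Module.End ℂ X.V) := Submodule.span ℂ (X.A : Set (Module.End ℂ X.V))

theorem le_AC {x : Module.End ℂ X.V} (h : x ∈ X.A) : x ∈ X.AC := Submodule.subset_span h

theorem mul_AC {x y : Module.End ℂ X.V} (hx : x ∈ X.AC) (hy : y ∈ X.AC) : x * y ∈ X.AC := by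
  induction hx using Submodule.span_induction with
  | mem x hx =>
    induction hy using Submodule.span_induction with
    | mem y hy => exact X.le_AC (X.A.mul_mem hx hy)
    | zero => rw [mul_zero]; exact zero_mem _
    | add y y' _ _ h h' => rw [mul_add]; exact add_mem h h'
    | smul a y _ h => rw [mul_smul_comm]; exact Submodule.smul_mem _ _ h
  | zero => rw [zero_mul]; exact zero_mem _
  | add x x' _ _ h h' => rw [add_mul]; exact add_mem h h'
  | smul a x _ h => rw [smul_mul_assoc]; exact Submodule.smul_mem _ _ h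

theorem one_AC : (1 : Module.End ℂ X.V) ∈ X.AC := X.le_AC X.A.one_mem

theorem pow_AC {x : Module.End ℂ X.V} (hx : x ∈ X.AC) (m : ℕ) : x ^ m ∈ X.AC := by
  induction m with
  | zero => rw [pow_zero]; exact X.one_AC
  | succ m ih => rw [pow_succ]; exact X.mul_AC ih hx

theorem aeval_AC {Ψ : Module.End ℂ X.V} (h : Ψ ∈ X.AC) (R : ℂ[X]) : aeval Ψ R ∈ X.AC := by
  induction R using Polynomial.induction_on' with
  | add p q hp hq => rw [map_add]; exact add_mem hp hq
  | monomial m a =>
    rw [aeval_monomial, ← Algebra.smul_def]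
    exact Submodule.smul_mem _ _ (X.pow_AC h m)

theorem comm_AC {x : Module.End ℂ X.V} (hx : x ∈ X.AC) (k : ℕ) : X.e k * x = x * X.e k := by
  induction hx using Submodule.span_induction with
  | mem x hx => exact X.comm k x hx
  | zero => rw [mul_zero, zero_mul]
  | add x x' _ _ h h' => rw [mul_add, add_mul, h, h']
  | smul a x _ h => rw [mul_smul_comm, smul_mul_assoc, h]

/-- Equal intersection numbers with all algebraic correspondences. -/
def Eqn (x y : Module.End ℂ X.V) : Prop := ∀ z ∈ X.A, inter n X.e x z = inter n X.e y z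

theorem eqn_AC {x y : Module.End ℂ X.V} (h : X.Eqn x y) {z : Module.End ℂ X.V} (hz : z ∈ X.AC) :
    inter n X.e x z = inter n X.e y z := by
  induction hz using Submodule.span_induction with
  | mem z hz => exact h z hz
  | zero =>
    exact (map_zero (interR n X.e x)).trans (map_zero (interR n X.e y)).symm
  | add z z' _ _ h h' => rw [inter_add_right, inter_add_right, h, h']
  | smul a z _ h => rw [inter_smul_right, inter_smul_right, h]

/-- Up to numerical equivalence all algebraic correspondences are defined over one finite field. -/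
theorem dense : ∃ s : ℕ, 0 < s ∧ ∀ x ∈ X.A, ∃ y ∈ X.A, X.F ^ s * y = y * X.F ^ s ∧ X.Eqn x y := by
  classical
  -- finitely many correspondences spanning `AC`
  obtain ⟨T, hT, hspan⟩ : ∃ T : Finset (Module.End ℂ X.V), (T : Set (Module.End ℂ X.V)) ⊆ (X.A : Set (Module.End ℂ X.V)) ∧
      Submodule.span ℂ (T : Set (Module.End ℂ X.V)) = X.AC := by
    have h1 : X.AC.FG := IsNoetherian.noetherian _
    obtain ⟨T, hT1, hT2⟩ := Submodule.fg_span_iff_fg_span_finset_subset (R := ℂ)
      (X.A : Set (Module.End ℂ X.V)) |>.1 h1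
    exact ⟨T, hT1, hT2.symm⟩
  -- the map to the intersection numbers
  let _ : Module ℚ (Module.End ℂ X.V) := Module.compHom _ (algebraMap ℚ ℂ)
  have hsm : ∀ (a : ℚ) (x : Module.End ℂ X.V), a • x = (a : ℂ) • x := fun a x => rfl
  let AQ : Submodule ℚ (Module.End ℂ X.V) :=
    { carrier := X.A
      add_mem' := fun h h' => X.A.add_mem h h'
      zero_mem' := X.A.zero_mem
      smul_mem' := fun a x hx => X.smul_mem a x hx }
  choose! ρ hρ using X.rat
  let θ : AQ →ₗ[ℚ] (T → ℚ) :=
    { toFun := fun x t => ρ x t
      map_add' := by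
        intro x y
        funext t
        have h1 := hρ _ (X.A.add_mem x.2 y.2) t.1 (hT t.2)
        rw [inter_add_left, hρ _ x.2 t.1 (hT t.2), hρ _ y.2 t.1 (hT t.2)] at h1
        exact_mod_cast h1.symm
      map_smul' := by
        intro a x
        funext t
        have h1 := hρ _ (X.smul_mem a x.1 x.2) t.1 (hT t.2)
        rw [inter_smul_left, hρ _ x.2 t.1 (hT t.2)] at h1
        have h2 : ((a * ρ x t.1 : ℚ) : ℂ) = (ρ ((a : ℂ) • x.1) t.1 : ℚ) := by
          rw [Rat.cast_mul]
          exact h1
        exact (Rat.cast_injective h2).symm }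
  have hθ : ∀ x y : AQ, θ x = θ y → X.Eqn x y := by
    intro x y h z hz
    have h1 : z ∈ Submodule.span ℂ (T : Set (Module.End ℂ X.V)) := by
      rw [hspan]
      exact X.le_AC hz
    have h2 : ∀ z ∈ Submodule.span ℂ (T : Set (Module.End ℂ X.V)),
        interR n X.e x.1 z = interR n X.e y.1 z := by
      intro z hz
      induction hz using Submodule.span_induction with
      | mem z hz =>
        change inter n X.e x z = inter n X.e y z
        rw [hρ _ x.2 z (hT hz), hρ _ y.2 z (hT hz)]
        exact congrArg _ (congrFun h ⟨z, hz⟩)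
      | zero => rw [map_zero, map_zero]
      | add z z' _ _ h h' => rw [map_add, map_add, h, h']
      | smul a z _ h => rw [map_smul, map_smul, h]
    exact h2 z h1
  -- generators of the image
  have hfg : (LinearMap.range θ).FG := IsNoetherian.noetherian _
  obtain ⟨S, hS⟩ := hfg
  have hpre : ∀ w ∈ S, ∃ x : AQ, θ x = w := by
    intro w hw
    have h1 : w ∈ LinearMap.range θ := by
      rw [← hS]
      exact Submodule.subset_span hw
    exact h1
  choose! g hg using hpre
  have hdef : ∀ w, ∃ s : ℕ, 0 < s ∧ X.F ^ s * (g w).1 = (g w).1 * X.F ^ s :=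
    fun w => X.defined _ (g w).2
  choose sg hsg0 hsg using hdef
  refine ⟨∏ w ∈ S, sg w, Finset.prod_pos fun w _ => hsg0 w, fun x hx => ?_⟩
  have h1 : θ ⟨x, hx⟩ ∈ Submodule.span ℚ (S : Set (T → ℚ)) := by
    rw [hS]
    exact ⟨_, rfl⟩
  have h2 : ∀ v ∈ Submodule.span ℚ (S : Set (T → ℚ)), ∃ y : AQ, θ y = v ∧
      X.F ^ (∏ w ∈ S, sg w) * y.1 = y.1 * X.F ^ (∏ w ∈ S, sg w) := by
    intro v hv
    induction hv using Submodule.span_induction with
    | mem v hv =>
      refine ⟨g v, hg v hv, ?_⟩
      obtain ⟨k, hk⟩ := Finset.dvd_prod_of_mem sg hv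
      rw [hk, pow_mul]
      exact (show Commute (X.F ^ sg v) (g v).1 from hsg v).pow_left k
    | zero => exact ⟨0, map_zero _, by simp⟩
    | add v v' _ _ h h' =>
      obtain ⟨y, h1, h2⟩ := h
      obtain ⟨y', h1', h2'⟩ := h'
      refine ⟨y + y', by rw [map_add, h1, h1'], ?_⟩
      change _ * (y.1 + y'.1) = (y.1 + y'.1) * _
      rw [mul_add, add_mul, h2, h2']
    | smul a v _ h =>
      obtain ⟨y, h1, h2⟩ := h
      refine ⟨a • y, by rw [map_smul, h1], ?_⟩
      change _ * ((a : ℂ) • y.1) = ((a : ℂ) • y.1) * _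
      rw [mul_smul_comm, smul_mul_assoc, h2]
  obtain ⟨y, hy1, hy2⟩ := h2 _ h1
  exact ⟨y.1, y.2, hy2, hθ ⟨x, hx⟩ y hy1.symm⟩

end Corr

end

end Pool.Agent.Q60.GR
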