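import Mathlib
import Pool.Agent.Q60.GR.Num

/-!
# The norm-degree inequality
-/

set_option autoImplicit false

namespace Pool.Agent.Q60.GR

open Module Polynomial

noncomputable section

namespace Corr

variable {n q : ℕ} (X : Corr n q)

theorem e_idem (k : ℕ) : X.e k * X.e k = X.e k := by rw [X.e_mul, if_pos rfl]

theorem e_comm (k l : ℕ) : X.e k * X.e l = X.e l * X.e k := X.comm k _ (X.e_mem l)

/-- Intersection numbers with the nilpotent elements of the centre vanish. -/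
theorem vanish {s : ℕ}
    (hd : ∀ x ∈ X.A, ∃ y ∈ X.A, X.F ^ s * y = y * X.F ^ s ∧ X.Eqn x y)
    {Ψ : Module.End ℂ X.V} (hΨ : Ψ ∈ X.A)
    (hc : ∀ y, X.F ^ s * y = y * X.F ^ s → Ψ * y = y * Ψ) (k : ℕ) (R : ℂ[X])
    (hR : ∀ β ∈ spec Ψ (X.e k), R.eval β = 0) {x z : Module.End ℂ X.V} (hx : x ∈ X.A)
    (hz : z ∈ X.A) : inter n X.e (x * (X.e k * aeval Ψ R)) z = 0 := by
  have hN : X.e k * aeval Ψ R ∈ X.AC :=
    X.mul_AC (X.le_AC (X.e_mem k)) (X.aeval_AC (X.le_AC hΨ) R)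
  obtain ⟨x', hx', hcx, hxx⟩ := hd x hx
  obtain ⟨z', hz', hcz, hzz⟩ := hd z hz
  have hxN : x' * (X.e k * aeval Ψ R) ∈ X.AC := X.mul_AC (X.le_AC hx') hN
  rw [inter_mul, X.eqn_AC hxx (X.mul_AC hN (X.le_AC hz)), ← inter_mul,
    inter_comm _ _ _ _ (fun k => X.comm_AC hxN k), X.eqn_AC hzz hxN,
    inter_comm _ _ _ _ (fun k => X.comm_AC (X.le_AC hz') k)]
  unfold inter
  refine Finset.sum_eq_zero fun l _ => ?_
  have h1 : X.e l * (x' * (X.e k * aeval Ψ R) * z') =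
      (X.e l * x') * ((X.e k * aeval Ψ R) * z') := by
    simp only [mul_assoc]
  have h2 : ((X.e k * aeval Ψ R) * z') * (X.e l * x') =
      X.e k * aeval Ψ R * (z' * (X.e l * x')) := by
    simp only [mul_assoc]
  rw [h1, LinearMap.trace_mul_comm, h2, trace_core Ψ (X.e k) (z' * (X.e l * x')) R (X.e_idem k)
    (X.comm k _ hΨ), mul_zero]
  · exact X.comm k _ (X.A.mul_mem hz' (X.A.mul_mem (X.e_mem l) hx'))
  · have hcl : Ψ * X.e l = X.e l * Ψ := (X.comm l _ hΨ).symm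
    have h3 : Commute Ψ (z' * (X.e l * x')) :=
      (show Commute Ψ z' from hc z' hcz).mul_right
        ((show Commute Ψ (X.e l) from hcl).mul_right (show Commute Ψ x' from hc x' hcx))
    exact h3.symm
  · intro β u hu hε hβ
    exact hR β ⟨u, hu, hε, hβ⟩

/-- Recovering the component of degree `k` of `x` from the composition of `x` with a power of `Ψ`. -/
theorem recover {s : ℕ}
    (hd : ∀ x ∈ X.A, ∃ y ∈ X.A, X.F ^ s * y = y * X.F ^ s ∧ X.Eqn x y)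
    {Ψ : Module.End ℂ X.V} (hΨ : Ψ ∈ X.A)
    (hc : ∀ y, X.F ^ s * y = y * X.F ^ s → Ψ * y = y * Ψ) (k : ℕ)
    (h0 : ∀ β ∈ spec Ψ (X.e k), β ≠ 0) {z : Module.End ℂ X.V} (hz : z ∈ X.A) :
    ∃ (S : Finset ℂ) (w : ℂ → Module.End ℂ X.V), (∀ β ∈ S, β ∈ spec Ψ (X.e k)) ∧
      (∀ β, w β ∈ X.AC) ∧ ∀ (m : ℕ), ∀ x ∈ X.A,
        inter n X.e (x * X.e k) z = ∑ β ∈ S, (β ^ m)⁻¹ * inter n X.e (x * Ψ ^ m) (w β) := by
  classical
  let S := (spec_finite Ψ (X.e k)).toFinset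
  have hS : ∀ β, β ∈ S ↔ β ∈ spec Ψ (X.e k) := fun β => Set.Finite.mem_toFinset _
  refine ⟨S, fun β => X.e k * aeval Ψ (Lagrange.basis S id β) * z, fun β hβ => (hS β).1 hβ,
    fun β => X.mul_AC (X.mul_AC (X.le_AC (X.e_mem k)) (X.aeval_AC (X.le_AC hΨ) _)) (X.le_AC hz),
    fun m x hx => ?_⟩
  let R : ℂ[X] := 1 - ∑ β ∈ S, C ((β ^ m)⁻¹) * (Lagrange.basis S id β * Polynomial.X ^ m)
  have hR : ∀ β ∈ spec Ψ (X.e k), R.eval β = 0 := by
    intro β hβ
    have hβS := (hS β).2 hβ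
    change (1 - ∑ γ ∈ S, C ((γ ^ m)⁻¹) * (Lagrange.basis S id γ * Polynomial.X ^ m) : ℂ[X]).eval β = 0
    rw [eval_sub, eval_one, eval_finsetSum, Finset.sum_eq_single β]
    · have h1 : (Lagrange.basis S id β).eval β = 1 :=
        Lagrange.eval_basis_self (Set.injOn_id _) hβS
      rw [eval_mul, eval_C, eval_mul, h1, one_mul, eval_pow, eval_X,
        inv_mul_cancel₀ (pow_ne_zero _ (h0 β hβ)), sub_self]
    · intro γ hγ hne
      have h1 : (Lagrange.basis S id γ).eval β = 0 :=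
        Lagrange.eval_basis_of_ne (v := id) hne hβS
      rw [eval_mul, eval_mul, h1, zero_mul, mul_zero]
    · intro h
      exact absurd hβS h
  have h1 := X.vanish hd hΨ hc k R hR hx hz
  have h2 : x * (X.e k * aeval Ψ R) = x * X.e k + (-1 : ℂ) • ∑ β ∈ S, (β ^ m)⁻¹ •
      (x * Ψ ^ m * (X.e k * aeval Ψ (Lagrange.basis S id β))) := by
    have h3 : aeval Ψ R = 1 - ∑ β ∈ S, (β ^ m)⁻¹ • (aeval Ψ (Lagrange.basis S id β) * Ψ ^ m) := by
      change aeval Ψ (1 - ∑ γ ∈ S, C ((γ ^ m)⁻¹) *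
        (Lagrange.basis S id γ * Polynomial.X ^ m) : ℂ[X]) = _
      rw [map_sub, map_one, map_sum]
      congr 1
      refine Finset.sum_congr rfl fun β _ => ?_
      rw [map_mul, map_mul, map_pow, aeval_X, aeval_C, ← Algebra.smul_def]
    rw [h3, mul_sub, mul_one, mul_sub, neg_one_smul, ← sub_eq_add_neg, Finset.mul_sum,
      Finset.mul_sum]
    congr 1
    refine Finset.sum_congr rfl fun β _ => ?_
    rw [mul_smul_comm, mul_smul_comm]
    congr 1
    have h4 : Ψ ^ m * X.e k = X.e k * Ψ ^ m :=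
      ((show Commute (X.e k) Ψ from X.comm k _ hΨ).pow_right m).symm
    have h5 : aeval Ψ (Lagrange.basis S id β) * Ψ ^ m =
        Ψ ^ m * aeval Ψ (Lagrange.basis S id β) :=
      (commute_aeval (x := Ψ ^ m) (Ψ := Ψ) ((Commute.refl Ψ).pow_left m) _).symm
    rw [h5, mul_assoc x, ← mul_assoc (Ψ ^ m), h4, mul_assoc (X.e k)]
  have hsum : ∀ (T : Finset ℂ) (g : ℂ → Module.End ℂ X.V),
      inter n X.e (∑ β ∈ T, g β) z = ∑ β ∈ T, inter n X.e (g β) z := by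
    intro T g
    induction T using Finset.induction_on with
    | empty =>
      rw [Finset.sum_empty, Finset.sum_empty]
      have h4 := inter_smul_left n X.e 0 0 z
      rwa [zero_smul, zero_mul] at h4
    | insert b T hb ih => rw [Finset.sum_insert hb, Finset.sum_insert hb, inter_add_left, ih]
  rw [h2, inter_add_left, inter_smul_left, hsum] at h1
  have h6 : inter n X.e (x * X.e k) z = ∑ β ∈ S, inter n X.e ((β ^ m)⁻¹ •
      (x * Ψ ^ m * (X.e k * aeval Ψ (Lagrange.basis S id β)))) z := by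
    linear_combination h1
  rw [h6]
  refine Finset.sum_congr rfl fun β _ => ?_
  rw [inter_smul_left, inter_mul]

/-! ### Frobenius -/

theorem FF' (hq : 1 < q) : X.F' * X.F = (q : ℂ) ^ n • 1 := by
  have hq0 : ((q : ℂ) ^ n) ≠ 0 := pow_ne_zero _ (by exact_mod_cast (by omega : q ≠ 0))
  have h1 : X.F * (((q : ℂ) ^ n)⁻¹ • X.F') = 1 := by
    rw [mul_smul_comm, X.F_F', smul_smul, inv_mul_cancel₀ hq0, one_smul]
  have h2 := mul_eq_one_comm.1 h1
  rw [smul_mul_assoc] at h2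
  have h3 := congrArg (fun T => ((q : ℂ) ^ n) • T) h2
  simp only [smul_smul, mul_inv_cancel₀ hq0, one_smul] at h3
  exact h3

theorem F_pow (hq : 1 < q) (s : ℕ) : X.F ^ s * X.F' ^ s = ((q : ℂ) ^ n) ^ s • 1 := by
  have h1 : Commute X.F X.F' := X.F_F'.trans (X.FF' hq).symm
  rw [← h1.mul_pow, X.F_F', _root_.smul_pow, one_pow]

theorem comm_F' (hq : 1 < q) (s : ℕ) (y : Module.End ℂ X.V)
    (h : X.F ^ s * y = y * X.F ^ s) : X.F' ^ s * y = y * X.F' ^ s := by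
  have hq0 : ((q : ℂ) ^ n) ^ s ≠ 0 :=
    pow_ne_zero _ (pow_ne_zero _ (by exact_mod_cast (by omega : q ≠ 0)))
  have h1 : Commute X.F X.F' := X.F_F'.trans (X.FF' hq).symm
  have h2 : X.F' ^ s * X.F ^ s = ((q : ℂ) ^ n) ^ s • 1 := by
    rw [← X.F_pow hq s]
    exact ((h1.pow_pow s s).symm)
  have h3 : (((q : ℂ) ^ n) ^ s) • (X.F' ^ s * y) = (((q : ℂ) ^ n) ^ s) • (y * X.F' ^ s) := by
    have h4 : X.F' ^ s * (X.F ^ s * y) * X.F' ^ s = X.F' ^ s * (y * X.F ^ s) * X.F' ^ s := by rw [h]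
    have h5 : X.F' ^ s * (X.F ^ s * y) * X.F' ^ s = (((q : ℂ) ^ n) ^ s) • (y * X.F' ^ s) := by
      rw [← mul_assoc, h2, smul_mul_assoc, smul_mul_assoc, one_mul]
    have h6 : X.F' ^ s * (y * X.F ^ s) * X.F' ^ s = (((q : ℂ) ^ n) ^ s) • (X.F' ^ s * y) := by
      rw [mul_assoc, mul_assoc, X.F_pow hq s, mul_smul_comm, mul_smul_comm, mul_one]
    rw [← h6, ← h4, h5]
  exact smul_right_injective _ hq0 h3

/-- The weights of the powers of the Frobenius endomorphism. -/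
theorem weight_F (s k : ℕ) (β : ℂ) (h : β ∈ spec (X.F ^ s) (X.e k)) :
    ‖β‖ ^ 2 = ((q : ℝ) ^ s) ^ k := by
  obtain ⟨u, hu, hε, hβ⟩ := h
  let W : Submodule ℂ X.V := LinearMap.ker (X.F ^ s - β • (1 : Module.End ℂ X.V)) ⊓
    LinearMap.ker (X.e k - 1)
  have hW : ∀ w, w ∈ W ↔ (X.F ^ s) w = β • w ∧ X.e k w = w := by
    intro w
    rw [Submodule.mem_inf, LinearMap.mem_ker, LinearMap.mem_ker, LinearMap.sub_apply,
      LinearMap.sub_apply, sub_eq_zero, sub_eq_zero]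
    rfl
  have hne : W ≠ ⊥ := by
    intro h
    have h4 : u ∈ W := (hW u).2 ⟨hβ, hε⟩
    rw [h, Submodule.mem_bot] at h4
    exact hu h4
  obtain ⟨α, w, hw, hw0, hα⟩ := exists_eigen X.F W hne fun v hv => by
    rw [hW] at hv ⊢
    have h1 : (X.F ^ s) (X.F v) = X.F ((X.F ^ s) v) := by
      rw [← Module.End.mul_apply, ← Module.End.mul_apply, ← pow_succ, ← pow_succ']
    have h2 : X.e k (X.F v) = X.F (X.e k v) := by
      rw [← Module.End.mul_apply, ← Module.End.mul_apply, X.comm k _ X.F_mem]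
    rw [h1, h2, hv.1, hv.2, map_smul]
    exact ⟨rfl, rfl⟩
  rw [hW] at hw
  have h1 := X.weight k α w hw0 hw.2 hα
  have h2 : ∀ s : ℕ, (X.F ^ s) w = α ^ s • w := by
    intro s
    induction s with
    | zero => simp
    | succ m ih => rw [pow_succ, Module.End.mul_apply, hα, map_smul, ih, smul_smul, pow_succ, mul_comm]
  have h3 : α ^ s = β := by
    have h4 := (h2 s).symm.trans hw.1
    exact smul_left_injective ℂ hw0 h4
  rw [← h3, norm_pow, ← pow_mul, mul_comm s 2, pow_mul, h1, ← pow_mul, ← pow_mul, mul_comm]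

/-- The weights of the powers of the transpose of the Frobenius endomorphism. -/
theorem weight_F' (hq : 1 < q) (s k : ℕ) (β : ℂ) (h : β ∈ spec (X.F' ^ s) (X.e k)) :
    ‖β‖ ^ 2 * ((q : ℝ) ^ s) ^ k = ((q : ℝ) ^ s) ^ (2 * n) := by
  obtain ⟨u, hu, hε, hβ⟩ := h
  have hq0 : ((q : ℂ) ^ n) ^ s ≠ 0 :=
    pow_ne_zero _ (pow_ne_zero _ (by exact_mod_cast (by omega : q ≠ 0)))
  have h1 : (X.F ^ s) ((X.F' ^ s) u) = (((q : ℂ) ^ n) ^ s) • u := by
    rw [← Module.End.mul_apply, X.F_pow hq s]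
    rfl
  rw [hβ, map_smul] at h1
  have hβ0 : β ≠ 0 := by
    rintro rfl
    rw [zero_smul] at h1
    exact smul_ne_zero hq0 hu h1.symm
  have h2 : (X.F ^ s) u = (((q : ℂ) ^ n) ^ s * β⁻¹) • u := by
    have h3 := congrArg (fun v => β⁻¹ • v) h1
    simp only [smul_smul, inv_mul_cancel₀ hβ0, one_smul] at h3
    rw [h3, mul_comm]
  have h3 := X.weight_F s k _ ⟨u, hu, hε, h2⟩
  rw [← h3, ← mul_pow, ← norm_mul, mul_comm, mul_assoc, inv_mul_cancel₀ hβ0, mul_one, norm_pow,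
    norm_pow, Complex.norm_natCast, ← pow_mul, ← pow_mul, ← pow_mul]
  congr 1
  ring

end Corr

end

end Pool.Agent.Q60.GR
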