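import Mathlib
import Pool.Agent.Q60.GR.Main

/-!
# The norm-degree inequality: estimates
-/

set_option autoImplicit false

namespace Pool.Agent.Q60.GR

open Module Polynomial

noncomputable section

namespace Corr

variable {n q : ℕ} (X : Corr n q)

/-- The intersection numbers with `p_1^* h ^ (n - j) · p_2^* h' ^ j`. -/
def d (f : Module.End ℂ X.V) (j : ℕ) : ℝ := (inter n X.e f (X.c j)).re

theorem deg_eq (f : Module.End ℂ X.V) :
    X.deg f = ∑ j ∈ Finset.range (n + 1), (n.choose j : ℝ) * X.d f j := by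
  unfold deg d
  have h1 : inter n X.e f (∑ j ∈ Finset.range (n + 1), (n.choose j : ℂ) • X.c j) =
      ∑ j ∈ Finset.range (n + 1), (n.choose j : ℂ) * inter n X.e f (X.c j) := by
    change interR n X.e f _ = _
    rw [map_sum]
    refine Finset.sum_congr rfl fun j _ => ?_
    rw [map_smul]
    rfl
  rw [h1, Complex.re_sum]
  refine Finset.sum_congr rfl fun j _ => ?_
  have h2 : ((n.choose j : ℂ)) = ((n.choose j : ℝ) : ℂ) := by norm_cast
  rw [h2, Complex.re_ofReal_mul]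

theorem d_nonneg {f : Module.End ℂ X.V} (hf : f ∈ X.Eff) {j : ℕ} (hj : j ≤ n) : 0 ≤ X.d f j :=
  X.eff_nonneg f hf j hj

theorem deg_nonneg {f : Module.End ℂ X.V} (hf : f ∈ X.Eff) : 0 ≤ X.deg f := by
  rw [X.deg_eq]
  refine Finset.sum_nonneg fun j hj => mul_nonneg (Nat.cast_nonneg _) (X.d_nonneg hf ?_)
  have := Finset.mem_range.1 hj
  omega

theorem eff_F_pow {f : Module.End ℂ X.V} (hf : f ∈ X.Eff) (m : ℕ) : f * X.F ^ m ∈ X.Eff := by
  induction m with
  | zero => rwa [pow_zero, mul_one]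
  | succ m ih => rw [pow_succ, ← mul_assoc]; exact X.eff_F _ ih

theorem eff_F'_pow {f : Module.End ℂ X.V} (hf : f ∈ X.Eff) (m : ℕ) : f * X.F' ^ m ∈ X.Eff := by
  induction m with
  | zero => rwa [pow_zero, mul_one]
  | succ m ih => rw [pow_succ, ← mul_assoc]; exact X.eff_F' _ ih

theorem F_pow_c (m j : ℕ) : X.F ^ m * X.c j = (((q : ℂ) ^ m) ^ j) • X.c j := by
  induction m with
  | zero => simp
  | succ m ih =>
    rw [pow_succ, mul_assoc, X.F_c, mul_smul_comm, ih, smul_smul, pow_succ, mul_pow, mul_comm]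

theorem F'_c (hq : 1 < q) {j : ℕ} (hj : j ≤ n) : X.F' * X.c j = ((q : ℂ) ^ (n - j)) • X.c j := by
  have hq0 : ((q : ℂ) ^ j) ≠ 0 := pow_ne_zero _ (by exact_mod_cast (by omega : q ≠ 0))
  have h1 : X.F' * (X.F * X.c j) = ((q : ℂ) ^ n) • X.c j := by
    rw [← mul_assoc, X.FF' hq, smul_mul_assoc, one_mul]
  rw [X.F_c, mul_smul_comm] at h1
  refine smul_right_injective _ hq0 ?_
  change ((q : ℂ) ^ j) • (X.F' * X.c j) = ((q : ℂ) ^ j) • (((q : ℂ) ^ (n - j)) • X.c j)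
  rw [h1, smul_smul, ← pow_add, Nat.add_sub_cancel' hj]

theorem F'_pow_c (hq : 1 < q) (m : ℕ) {j : ℕ} (hj : j ≤ n) :
    X.F' ^ m * X.c j = (((q : ℂ) ^ m) ^ (n - j)) • X.c j := by
  induction m with
  | zero => simp
  | succ m ih =>
    rw [pow_succ, mul_assoc, X.F'_c hq hj, mul_smul_comm, ih, smul_smul, pow_succ, mul_pow, mul_comm]

theorem d_F (f : Module.End ℂ X.V) (m j : ℕ) :
    X.d (f * X.F ^ m) j = ((q : ℝ) ^ m) ^ j * X.d f j := by
  unfold d
  rw [inter_mul, X.F_pow_c, inter_smul_right]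
  have h2 : (((q : ℂ) ^ m) ^ j) = ((((q : ℝ) ^ m) ^ j : ℝ) : ℂ) := by push_cast; rfl
  rw [h2, Complex.re_ofReal_mul]

theorem d_F' (hq : 1 < q) (f : Module.End ℂ X.V) (m : ℕ) {j : ℕ} (hj : j ≤ n) :
    X.d (f * X.F' ^ m) j = ((q : ℝ) ^ m) ^ (n - j) * X.d f j := by
  unfold d
  rw [inter_mul, X.F'_pow_c hq m hj, inter_smul_right]
  have h2 : (((q : ℂ) ^ m) ^ (n - j)) = ((((q : ℝ) ^ m) ^ (n - j) : ℝ) : ℂ) := by push_cast; rfl
  rw [h2, Complex.re_ofReal_mul]

theorem bounded_AC {z : Module.End ℂ X.V} (hz : z ∈ X.AC) :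
    ∃ C : ℝ, 0 ≤ C ∧ ∀ f ∈ X.Eff, ‖inter n X.e f z‖ ≤ C * X.deg f := by
  induction hz using Submodule.span_induction with
  | mem z hz =>
    obtain ⟨C, hC⟩ := X.eff_bounded z hz
    refine ⟨max C 0, le_max_right _ _, fun f hf => (hC f hf).trans ?_⟩
    exact mul_le_mul_of_nonneg_right (le_max_left _ _) (X.deg_nonneg hf)
  | zero =>
    refine ⟨0, le_rfl, fun f hf => ?_⟩
    have h1 : inter n X.e f 0 = 0 := map_zero (interR n X.e f)
    rw [h1, norm_zero, zero_mul]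
  | add z z' _ _ h h' =>
    obtain ⟨C, hC0, hC⟩ := h
    obtain ⟨C', hC0', hC'⟩ := h'
    refine ⟨C + C', add_nonneg hC0 hC0', fun f hf => ?_⟩
    rw [inter_add_right, add_mul]
    exact (norm_add_le _ _).trans (add_le_add (hC f hf) (hC' f hf))
  | smul a z _ h =>
    obtain ⟨C, hC0, hC⟩ := h
    refine ⟨‖a‖ * C, mul_nonneg (norm_nonneg _) hC0, fun f hf => ?_⟩
    rw [inter_smul_right, norm_mul, mul_assoc]
    exact mul_le_mul_of_nonneg_left (hC f hf) (norm_nonneg _)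

/-- The degree of the composition with `G r`. -/
def DD (r : ℝ) (f : Module.End ℂ X.V) : ℝ :=
  ∑ j ∈ Finset.range (n + 1), (n.choose j : ℝ) * ((r ^ 2) ^ j * X.d f j)

theorem DD_nonneg {r : ℝ} {f : Module.End ℂ X.V} (hf : f ∈ X.Eff) : 0 ≤ X.DD r f := by
  refine Finset.sum_nonneg fun j hj => mul_nonneg (Nat.cast_nonneg _) (mul_nonneg (by positivity)
    (X.d_nonneg hf ?_))
  have := Finset.mem_range.1 hj
  omega

/-- Elementary inequality. -/
theorem aux {a b c : ℝ} (ha : 0 ≤ a) (hc : 1 ≤ c) (h : a ^ 2 ≤ c) (hb : c = b) : a ≤ b := by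
  subst hb
  by_contra hcon
  push Not at hcon
  nlinarith

theorem core (hq : 1 < q) (k : ℕ) (hk : k ≤ 2 * n) {z : Module.End ℂ X.V} (hz : z ∈ X.A) :
    ∃ C : ℝ, 0 ≤ C ∧ ∀ r : ℝ, 0 < r → ∀ f ∈ X.Eff,
      r ^ k * ‖inter n X.e (f * X.e k) z‖ ≤ C * X.DD r f := by
  classical
  obtain ⟨s, hs, hd⟩ := X.dense
  set Q : ℝ := (q : ℝ) ^ s with hQdef
  have hq1 : (1 : ℝ) < q := by exact_mod_cast hq
  have hQ1 : 1 < Q := one_lt_pow₀ hq1 hs.ne'
  have hQ0 : 0 < Q := by linarith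
  -- positive powers
  have h0 : ∀ β ∈ spec (X.F ^ s) (X.e k), β ≠ 0 := by
    intro β hβ h
    have h1 := X.weight_F s k β hβ
    rw [h, norm_zero] at h1
    have h2 : 0 < ((q : ℝ) ^ s) ^ k := by positivity
    rw [← h1] at h2
    norm_num at h2
  obtain ⟨S, w, hS, hw, hrec⟩ := X.recover hd (Ψ := X.F ^ s) (X.A.pow_mem X.F_mem s)
    (fun y h => h) k h0 hz
  choose C hC0 hC using fun β => X.bounded_AC (hw β)
  -- negative powers
  have hF's : X.F' ^ s ∈ X.A := X.A.pow_mem X.F'_mem s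
  have h0' : ∀ β ∈ spec (X.F' ^ s) (X.e k), β ≠ 0 := by
    intro β hβ h
    have h1 := X.weight_F' hq s k β hβ
    rw [h, norm_zero] at h1
    have h2 : 0 < ((q : ℝ) ^ s) ^ (2 * n) := by positivity
    rw [← h1] at h2
    norm_num at h2
  obtain ⟨S', w', hS', hw', hrec'⟩ := X.recover hd (Ψ := X.F' ^ s) hF's
    (fun y h => X.comm_F' hq s y h) k h0' hz
  choose C' hC0' hC' using fun β => X.bounded_AC (hw' β)
  refine ⟨Q ^ k * ((∑ β ∈ S, C β) + ∑ β ∈ S', C' β), mul_nonneg (by positivity)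
    (add_nonneg (Finset.sum_nonneg fun β _ => hC0 β) (Finset.sum_nonneg fun β _ => hC0' β)),
    fun r hr f hf => ?_⟩
  obtain ⟨m, hm1, hm2⟩ := exists_mem_Ico_zpow (x := r ^ 2) (y := Q) (by positivity) hQ1
  have hDD := X.DD_nonneg (r := r) hf
  rcases Int.eq_nat_or_neg m with ⟨m, rfl | rfl⟩
  · rw [zpow_natCast] at hm1
    have hm2' : r ^ 2 ≤ Q ^ (m + 1) := by
      have h1 := hm2.le
      exact_mod_cast h1
    have h1 : ‖inter n X.e (f * X.e k) z‖ ≤
        ∑ β ∈ S, (‖β‖ ^ m)⁻¹ * (C β * X.DD r f) := by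
      rw [hrec m f (X.eff_mem f hf)]
      refine (norm_sum_le _ _).trans (Finset.sum_le_sum fun β _ => ?_)
      rw [norm_mul, norm_inv, norm_pow]
      refine mul_le_mul_of_nonneg_left ?_ (by positivity)
      rw [← pow_mul]
      refine (hC β _ (X.eff_F_pow hf (s * m))).trans ?_
      refine mul_le_mul_of_nonneg_left ?_ (hC0 β)
      rw [X.deg_eq]
      refine Finset.sum_le_sum fun j hj => ?_
      have hj' : j ≤ n := by
        have := Finset.mem_range.1 hj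
        omega
      refine mul_le_mul_of_nonneg_left ?_ (Nat.cast_nonneg _)
      rw [X.d_F, pow_mul]
      exact mul_le_mul_of_nonneg_right (pow_le_pow_left₀ (by positivity) hm1 j) (X.d_nonneg hf hj')
    have h2 : ∀ β ∈ S, r ^ k * (‖β‖ ^ m)⁻¹ ≤ Q ^ k := by
      intro β hβ
      have h3 := X.weight_F s k β (hS β hβ)
      have hβ0 : 0 < ‖β‖ := norm_pos_iff.2 (h0 β (hS β hβ))
      refine aux (by positivity) (one_le_pow₀ hQ1.le) (c := Q ^ k) ?_ rfl
      rw [mul_pow, inv_pow, ← pow_mul ‖β‖, mul_comm m 2, pow_mul ‖β‖, h3, ← pow_mul r, mul_comm k 2,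
        pow_mul r, ← div_eq_mul_inv, div_le_iff₀ (by positivity)]
      calc (r ^ 2) ^ k ≤ (Q ^ (m + 1)) ^ k := pow_le_pow_left₀ (by positivity) hm2' k
        _ = Q ^ k * (((q : ℝ) ^ s) ^ k) ^ m := by
          rw [← hQdef]
          ring
    calc r ^ k * ‖inter n X.e (f * X.e k) z‖
        ≤ r ^ k * ∑ β ∈ S, (‖β‖ ^ m)⁻¹ * (C β * X.DD r f) :=
          mul_le_mul_of_nonneg_left h1 (by positivity)
      _ = ∑ β ∈ S, (r ^ k * (‖β‖ ^ m)⁻¹) * (C β * X.DD r f) := by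
          rw [Finset.mul_sum]
          refine Finset.sum_congr rfl fun β _ => ?_
          ring
      _ ≤ ∑ β ∈ S, Q ^ k * (C β * X.DD r f) := by
          refine Finset.sum_le_sum fun β hβ => ?_
          exact mul_le_mul_of_nonneg_right (h2 β hβ) (mul_nonneg (hC0 β) hDD)
      _ = Q ^ k * (∑ β ∈ S, C β) * X.DD r f := by
          rw [← Finset.mul_sum, ← Finset.sum_mul]
          ring
      _ ≤ Q ^ k * ((∑ β ∈ S, C β) + ∑ β ∈ S', C' β) * X.DD r f := by
          refine mul_le_mul_of_nonneg_right (mul_le_mul_of_nonneg_left ?_ (by positivity)) hDD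
          linarith [Finset.sum_nonneg (s := S') fun β _ => hC0' β]
  · rw [zpow_neg, zpow_natCast] at hm1
    have hQm : 0 < Q ^ m := by positivity
    have hm2' : r ^ 2 * Q ^ m ≤ Q := by
      have h1 : r ^ 2 < Q ^ (-(m : ℤ) + 1) := hm2
      rw [zpow_add₀ hQ0.ne', zpow_neg, zpow_natCast, zpow_one] at h1
      have h2 := mul_lt_mul_of_pos_right h1 hQm
      have h3 : (Q ^ m)⁻¹ * Q * Q ^ m = Q := by
        field_simp
      rw [h3] at h2
      exact h2.le
    have hm1' : 1 ≤ r ^ 2 * Q ^ m := by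
      have h2 := mul_le_mul_of_nonneg_right hm1 hQm.le
      rwa [inv_mul_cancel₀ hQm.ne'] at h2
    have h1 : ‖inter n X.e (f * X.e k) z‖ ≤
        ∑ β ∈ S', (‖β‖ ^ m)⁻¹ * (C' β * ((Q ^ m) ^ n * X.DD r f)) := by
      rw [hrec' m f (X.eff_mem f hf)]
      refine (norm_sum_le _ _).trans (Finset.sum_le_sum fun β _ => ?_)
      rw [norm_mul, norm_inv, norm_pow]
      refine mul_le_mul_of_nonneg_left ?_ (by positivity)
      rw [← pow_mul]
      refine (hC' β _ (X.eff_F'_pow hf (s * m))).trans ?_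
      refine mul_le_mul_of_nonneg_left ?_ (hC0' β)
      rw [X.deg_eq, DD, Finset.mul_sum]
      refine Finset.sum_le_sum fun j hj => ?_
      have hj' : j ≤ n := by
        have := Finset.mem_range.1 hj
        omega
      have h3 : (Q ^ m) ^ (n - j) ≤ (Q ^ m) ^ n * (r ^ 2) ^ j := by
        have h4 : (Q ^ m) ^ n = (Q ^ m) ^ (n - j) * (Q ^ m) ^ j := by
          rw [← pow_add, Nat.sub_add_cancel hj']
        rw [h4, mul_assoc, ← mul_pow]
        have h5 : 1 ≤ (Q ^ m * r ^ 2) ^ j := one_le_pow₀ (by linarith)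
        have h6 : 0 < (Q ^ m) ^ (n - j) := by positivity
        nlinarith
      have h7 := X.d_nonneg hf hj'
      rw [X.d_F' hq f (s * m) hj', pow_mul]
      calc (n.choose j : ℝ) * ((((q : ℝ) ^ s) ^ m) ^ (n - j) * X.d f j)
          ≤ (n.choose j : ℝ) * ((Q ^ m) ^ n * (r ^ 2) ^ j * X.d f j) := by
            refine mul_le_mul_of_nonneg_left ?_ (Nat.cast_nonneg _)
            exact mul_le_mul_of_nonneg_right h3 h7
        _ = _ := by ring
    have h2 : ∀ β ∈ S', r ^ k * (‖β‖ ^ m)⁻¹ * (Q ^ m) ^ n ≤ Q ^ k := by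
      intro β hβ
      have h3 := X.weight_F' hq s k β (hS' β hβ)
      rw [← hQdef] at h3
      have hβ0 : 0 < ‖β‖ := norm_pos_iff.2 (h0' β (hS' β hβ))
      refine aux (by positivity) (one_le_pow₀ hQ1.le) (c := Q ^ k) ?_ rfl
      have h4 : (r ^ k * (‖β‖ ^ m)⁻¹ * (Q ^ m) ^ n) ^ 2 =
          (r ^ 2) ^ k * ((‖β‖ ^ 2) ^ m)⁻¹ * (Q ^ (2 * n)) ^ m := by
        rw [mul_pow, mul_pow, inv_pow]
        congr 1
        · congr 1
          · ring
          · congr 1
            ring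
        · ring
      rw [h4, ← h3]
      have h5 : (r ^ 2) ^ k * ((‖β‖ ^ 2) ^ m)⁻¹ * (‖β‖ ^ 2 * Q ^ k) ^ m = (r ^ 2 * Q ^ m) ^ k := by
        rw [mul_pow]
        have h6 : (‖β‖ ^ 2) ^ m ≠ 0 := by positivity
        field_simp
        ring
      rw [h5]
      exact pow_le_pow_left₀ (by positivity) hm2' k
    calc r ^ k * ‖inter n X.e (f * X.e k) z‖
        ≤ r ^ k * ∑ β ∈ S', (‖β‖ ^ m)⁻¹ * (C' β * ((Q ^ m) ^ n * X.DD r f)) :=
          mul_le_mul_of_nonneg_left h1 (by positivity)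
      _ = ∑ β ∈ S', (r ^ k * (‖β‖ ^ m)⁻¹ * (Q ^ m) ^ n) * (C' β * X.DD r f) := by
          rw [Finset.mul_sum]
          refine Finset.sum_congr rfl fun β _ => ?_
          ring
      _ ≤ ∑ β ∈ S', Q ^ k * (C' β * X.DD r f) := by
          refine Finset.sum_le_sum fun β hβ => ?_
          exact mul_le_mul_of_nonneg_right (h2 β hβ) (mul_nonneg (hC0' β) hDD)
      _ = Q ^ k * (∑ β ∈ S', C' β) * X.DD r f := by
          rw [← Finset.mul_sum, ← Finset.sum_mul]
          ring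
      _ ≤ Q ^ k * ((∑ β ∈ S, C β) + ∑ β ∈ S', C' β) * X.DD r f := by
          refine mul_le_mul_of_nonneg_right (mul_le_mul_of_nonneg_left ?_ (by positivity)) hDD
          linarith [Finset.sum_nonneg (s := S) fun β _ => hC0 β]

end Corr

end

end Pool.Agent.Q60.GR
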