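import Mathlib
import Pool.Agent.Q60.GR.Fin

/-!
# The norm-degree inequality
-/

set_option autoImplicit false

namespace Pool.Agent.Q60.GR

open Module Polynomial

noncomputable section

namespace Corr

variable {n q : ℕ} (X : Corr n q)

theorem G_c (r : ℚ) {j : ℕ} (hj : j ≤ n) : X.G r * X.c j = (((r : ℂ) ^ 2) ^ j) • X.c j := by
  unfold G
  rw [Finset.sum_mul, Finset.sum_eq_single (2 * j)]
  · rw [smul_mul_assoc, X.c_deg, pow_mul]
  · intro k _ hk
    rw [smul_mul_assoc, ← X.c_deg j, ← mul_assoc, X.e_mul, if_neg hk, zero_mul, smul_zero]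
  · intro h
    exact absurd (Finset.mem_range.2 (by omega)) h

theorem d_G (r : ℚ) (f : Module.End ℂ X.V) {j : ℕ} (hj : j ≤ n) :
    X.d (f * X.G r) j = ((r : ℝ) ^ 2) ^ j * X.d f j := by
  unfold d
  rw [inter_mul, X.G_c r hj, inter_smul_right]
  have h2 : (((r : ℂ) ^ 2) ^ j) = ((((r : ℝ) ^ 2) ^ j : ℝ) : ℂ) := by push_cast; rfl
  rw [h2, Complex.re_ofReal_mul]

theorem deg_G (r : ℚ) (f : Module.End ℂ X.V) : X.deg (f * X.G r) = X.DD r f := by
  rw [X.deg_eq, DD]
  refine Finset.sum_congr rfl fun j hj => ?_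
  have := Finset.mem_range.1 hj
  rw [X.d_G r f (by omega)]

theorem inter_G (r : ℚ) (f z : Module.End ℂ X.V) : inter n X.e (f * X.G r) z =
    ∑ k ∈ Finset.range (2 * n + 1), (r : ℂ) ^ k * inter n X.e (f * X.e k) z := by
  have h1 : ∀ (S : Finset ℕ), inter n X.e (f * ∑ k ∈ S, ((r : ℂ) ^ k) • X.e k) z =
      ∑ k ∈ S, (r : ℂ) ^ k * inter n X.e (f * X.e k) z := by
    intro S
    induction S using Finset.induction_on with
    | empty =>
      rw [Finset.sum_empty, Finset.sum_empty, mul_zero]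
      have h4 := inter_smul_left n X.e 0 0 z
      rwa [zero_smul, zero_mul] at h4
    | insert b T hb ih =>
      rw [Finset.sum_insert hb, Finset.sum_insert hb, mul_add, inter_add_left, ih, mul_smul_comm,
        inter_smul_left]
  exact h1 _

/-- The bound of the intersection numbers. -/
theorem bound (hq : 1 < q) {z : Module.End ℂ X.V} (hz : z ∈ X.A) :
    ∃ C : ℝ, 0 ≤ C ∧ ∀ r : ℚ, 0 < r → ∀ f ∈ X.Eff,
      ‖inter n X.e (f * X.G r) z‖ ≤ C * X.deg (f * X.G r) := by
  have h1 : ∀ k : ℕ, ∃ C : ℝ, 0 ≤ C ∧ (k ≤ 2 * n → ∀ r : ℝ, 0 < r → ∀ f ∈ X.Eff,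
      r ^ k * ‖inter n X.e (f * X.e k) z‖ ≤ C * X.DD r f) := by
    intro k
    by_cases hk : k ≤ 2 * n
    · obtain ⟨C, h, h'⟩ := X.core hq k hk hz
      exact ⟨C, h, fun _ => h'⟩
    · exact ⟨0, le_rfl, fun h => absurd h hk⟩
  choose C hC0 hC using h1
  refine ⟨∑ k ∈ Finset.range (2 * n + 1), C k, Finset.sum_nonneg fun k _ => hC0 k,
    fun r hr f hf => ?_⟩
  rw [X.inter_G, X.deg_G, Finset.sum_mul]
  refine (norm_sum_le _ _).trans (Finset.sum_le_sum fun k hk => ?_)
  have hr' : (0 : ℝ) < r := by exact_mod_cast hr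
  have hk' := Finset.mem_range.1 hk
  have h2 := hC k (by omega) r hr' f hf
  rw [norm_mul, norm_pow]
  have h3 : ‖(r : ℂ)‖ = (r : ℝ) := by
    have h4 : ((r : ℂ)) = ((r : ℝ) : ℂ) := by norm_cast
    rw [h4, Complex.norm_real, Real.norm_of_nonneg hr'.le]
  rw [h3]
  exact h2

theorem mem_N {w : X.A → ℂ} (hw : w ∈ X.N) :
    ∃ φ : Module.End ℂ X.V →ₗ[ℂ] ℂ, ∀ z : X.A, w z = φ z := by
  induction hw using Submodule.span_induction with
  | mem w hw =>
    obtain ⟨f, rfl⟩ := hw
    exact ⟨interR n X.e f, fun z => rfl⟩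
  | zero => exact ⟨0, fun z => rfl⟩
  | add w w' _ _ h h' =>
    obtain ⟨φ, hφ⟩ := h
    obtain ⟨φ', hφ'⟩ := h'
    exact ⟨φ + φ', fun z => by rw [Pi.add_apply, hφ, hφ', LinearMap.add_apply]⟩
  | smul a w _ h =>
    obtain ⟨φ, hφ⟩ := h
    refine ⟨(a : ℂ) • φ, fun z => ?_⟩
    rw [Pi.smul_apply, hφ, LinearMap.smul_apply]
    rfl

/-- Every seminorm on `N` is bounded by finitely many intersection numbers. -/
theorem seminorm_bound (ν : Seminorm ℝ X.N) : ∃ (T : Finset (Module.End ℂ X.V))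
    (hT : (T : Set (Module.End ℂ X.V)) ⊆ (X.A : Set (Module.End ℂ X.V))) (K : T → ℝ),
    (∀ t, 0 ≤ K t) ∧ ∀ w : X.N, ν w ≤ ∑ t : T, K t * ‖w.1 ⟨t.1, hT t.2⟩‖ := by
  classical
  obtain ⟨T, hT, hspan⟩ : ∃ T : Finset (Module.End ℂ X.V),
      (T : Set (Module.End ℂ X.V)) ⊆ (X.A : Set (Module.End ℂ X.V)) ∧
      Submodule.span ℂ (T : Set (Module.End ℂ X.V)) = X.AC := by
    have h1 : X.AC.FG := IsNoetherian.noetherian _
    obtain ⟨T, hT1, hT2⟩ := Submodule.fg_span_iff_fg_span_finset_subset (R := ℂ)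
      (X.A : Set (Module.End ℂ X.V)) |>.1 h1
    exact ⟨T, hT1, hT2.symm⟩
  let ev : X.N →ₗ[ℝ] (T → ℂ) :=
    { toFun := fun w t => w.1 ⟨t.1, hT t.2⟩
      map_add' := fun _ _ => rfl
      map_smul' := fun _ _ => rfl }
  have hinj : LinearMap.ker ev = ⊥ := by
    rw [eq_bot_iff]
    intro w hw
    obtain ⟨φ, hφ⟩ := X.mem_N w.2
    have h1 : ∀ z ∈ Submodule.span ℂ (T : Set (Module.End ℂ X.V)), φ z = 0 := by
      intro z hz
      induction hz using Submodule.span_induction with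
      | mem z hz =>
        have h2 : ev w ⟨z, hz⟩ = 0 := by
          rw [LinearMap.mem_ker.1 hw]
          rfl
        rw [← hφ ⟨z, hT hz⟩]
        exact h2
      | zero => exact map_zero φ
      | add z z' _ _ h h' => rw [map_add, h, h', add_zero]
      | smul a z _ h => rw [map_smul, h, smul_zero]
    rw [Submodule.mem_bot]
    apply Subtype.ext
    funext z
    rw [hφ z]
    refine h1 z ?_
    rw [hspan]
    exact X.le_AC z.2
  obtain ⟨g, hg⟩ := LinearMap.exists_leftInverse_of_injective ev hinj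
  let E : T → T → ℂ := fun t => Pi.single t 1
  let E' : T → T → ℂ := fun t => Pi.single t Complex.I
  refine ⟨T, hT, fun t => ν (g (E t)) + ν (g (E' t)), fun t => add_nonneg (apply_nonneg _ _)
    (apply_nonneg _ _), fun w => ?_⟩
  have h1 : ∀ u : T → ℂ, u = ∑ t : T, ((u t).re • E t + (u t).im • E' t) := by
    intro u
    funext s
    rw [Finset.sum_apply, Finset.sum_eq_single s]
    · change u s = (u s).re • (Pi.single s (1 : ℂ) : T → ℂ) s +
        (u s).im • (Pi.single s Complex.I : T → ℂ) s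
      rw [Pi.single_eq_same, Pi.single_eq_same, Complex.real_smul, Complex.real_smul, mul_one,
        Complex.re_add_im]
    · intro t _ ht
      change (u t).re • (Pi.single t (1 : ℂ) : T → ℂ) s +
        (u t).im • (Pi.single t Complex.I : T → ℂ) s = 0
      rw [Pi.single_eq_of_ne ht.symm, Pi.single_eq_of_ne ht.symm, smul_zero, smul_zero, add_zero]
    · intro h
      exact absurd (Finset.mem_univ s) h
  have h2 : w = ∑ t : T, ((ev w t).re • g (E t) + (ev w t).im • g (E' t)) := by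
    have h3 : w = g (ev w) := by
      have h4 := LinearMap.congr_fun hg w
      exact h4.symm
    rw [h3]
    have h5 := congrArg g (h1 (ev w))
    rw [map_sum] at h5
    simp only [map_add, map_smul] at h5
    have h6 : ev (g (ev w)) = ev w := by rw [← h3]
    rw [h6]
    exact h5
  have h3 : ν w ≤ ∑ t : T, ν ((ev w t).re • g (E t) + (ev w t).im • g (E' t)) := by
    conv_lhs => rw [h2]
    exact Finset.le_sum_of_subadditive ν (map_zero ν).le (map_add_le_add ν) _ _
  refine h3.trans (Finset.sum_le_sum fun t _ => ?_)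
  refine (map_add_le_add ν _ _).trans ?_
  rw [map_smul_eq_mul, map_smul_eq_mul, add_mul, Real.norm_eq_abs, Real.norm_eq_abs]
  refine add_le_add ?_ ?_
  · rw [mul_comm]
    exact mul_le_mul_of_nonneg_left (Complex.abs_re_le_norm _) (apply_nonneg _ _)
  · rw [mul_comm]
    exact mul_le_mul_of_nonneg_left (Complex.abs_im_le_norm _) (apply_nonneg _ _)

/-- **The norm-degree inequality.** -/
theorem final (hq : 1 < q) (ν : Seminorm ℝ X.N) : ∃ C : ℝ, 0 < C ∧ ∀ r : ℚ, 0 < r →
    ∀ (f : Module.End ℂ X.V) (hf : f ∈ X.Eff),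
      ν ⟨X.num (f * X.G r), X.num_mem _ (X.G_mul_mem r f hf)⟩ ≤ C * X.deg (f * X.G r) := by
  classical
  obtain ⟨T, hT, K, hK0, hK⟩ := X.seminorm_bound ν
  choose C hC0 hC using fun t : T => X.bound hq (hT t.2)
  refine ⟨(∑ t : T, K t * C t) + 1, ?_, fun r hr f hf => ?_⟩
  · have := Finset.sum_nonneg (s := Finset.univ) fun (t : T) _ => mul_nonneg (hK0 t) (hC0 t)
    linarith
  · have h0 : 0 ≤ X.deg (f * X.G r) := by
      rw [X.deg_G]
      exact X.DD_nonneg hf
    refine (hK _).trans ?_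
    calc ∑ t : T, K t * ‖X.num (f * X.G r) ⟨t.1, hT t.2⟩‖
        ≤ ∑ t : T, K t * (C t * X.deg (f * X.G r)) :=
          Finset.sum_le_sum fun t _ => mul_le_mul_of_nonneg_left (hC t r hr f hf) (hK0 t)
      _ = (∑ t : T, K t * C t) * X.deg (f * X.G r) := by
          rw [Finset.sum_mul]
          refine Finset.sum_congr rfl fun t _ => ?_
          ring
      _ ≤ _ := by linarith

end Corr

end

end Pool.Agent.Q60.GR
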